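import Pool.Agent.Lib.MP_b9e19b_mp.Small.Tri.Cov
import Pool.Agent.Lib.MP_b9e19b_mp.Small.Tri.Run.R7a00
import Pool.Agent.Lib.MP_b9e19b_mp.Small.Tri.Run.R7a01

set_option autoImplicit false

/-! All knot cells of the certificate 7a. -/

namespace RelEqN.Small.Tri.G7a

theorem good : Dat7a.cert.good = true := by decide +kernel

/-- all knot cells -/
def l : List (Nat × Nat × Nat) :=
  R7a00.l ++ (R7a01.l)

theorem cov : Dat7a.cert.cov l = true := by decide +kernel

theorem run : Dat7a.cert.Run :=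
  stmtCov.2.1 _ l
    (stmtCov.2.2.1 _ _ _ R7a00.run
    R7a01.run)
    cov

end RelEqN.Small.Tri.G7a
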