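import Pool.Agent.Lib.MP_b9e19b_mp.Small.Tri.Dat7b
import Pool.Agent.Lib.MP_b9e19b_mp.Small.Tri.RunL

set_option autoImplicit false

/-! Kernel check of knot cells, certificate 7b. -/

namespace RelEqN.Small.Tri.R7b03

/-- knot cells -/
def l0 : List (Nat × Nat × Nat) := [
  (3, 7, 9), (3, 7, 10), (3, 7, 11), (3, 8, 8), (3, 8, 9), (3, 8, 10), (3, 8, 11), (3, 9, 9),
  (3, 9, 10), (3, 9, 11), (3, 10, 10), (3, 10, 11), (3, 11, 11), (4, 4, 4), (4, 4, 5), (4, 4, 6),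
  (4, 4, 7), (4, 4, 8), (4, 4, 9), (4, 4, 10), (4, 4, 11), (4, 5, 5), (4, 5, 6), (4, 5, 7)]

theorem run0 : Dat7b.cert.runL l0 = true := by decide +kernel

/-- knot cells -/
def l1 : List (Nat × Nat × Nat) := [
  (4, 5, 8), (4, 5, 9), (4, 5, 10), (4, 5, 11), (4, 6, 6), (4, 6, 7), (4, 6, 8), (4, 6, 9),
  (4, 6, 10), (4, 6, 11), (4, 7, 7), (4, 7, 8), (4, 7, 9), (4, 7, 10), (4, 7, 11), (4, 8, 8),
  (4, 8, 9), (4, 8, 10), (4, 8, 11), (4, 9, 9), (4, 9, 10), (4, 9, 11), (4, 10, 10), (4, 10, 11),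
  (4, 11, 11), (5, 5, 5), (5, 5, 6), (5, 5, 7), (5, 5, 8)]

theorem run1 : Dat7b.cert.runL l1 = true := by decide +kernel

/-- knot cells -/
def l2 : List (Nat × Nat × Nat) := [
  (5, 5, 9), (5, 5, 10), (5, 5, 11), (5, 6, 6), (5, 6, 7), (5, 6, 8), (5, 6, 9), (5, 6, 10),
  (5, 6, 11), (5, 7, 7), (5, 7, 8), (5, 7, 9), (5, 7, 10), (5, 7, 11), (5, 8, 8), (5, 8, 9),
  (5, 8, 10), (5, 8, 11), (5, 9, 9), (5, 9, 10), (5, 9, 11), (5, 10, 10), (5, 10, 11), (5, 11, 11),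
  (6, 6, 6), (6, 6, 7), (6, 6, 8), (6, 6, 9), (6, 6, 10), (6, 6, 11)]

theorem run2 : Dat7b.cert.runL l2 = true := by decide +kernel

/-- knot cells -/
def l3 : List (Nat × Nat × Nat) := [
  (6, 7, 7), (6, 7, 8), (6, 7, 9), (6, 7, 10), (6, 7, 11), (6, 8, 8), (6, 8, 9), (6, 8, 10),
  (6, 8, 11), (6, 9, 9), (6, 9, 10), (6, 9, 11), (6, 10, 10), (6, 10, 11), (6, 11, 11), (7, 7, 7),
  (7, 7, 8), (7, 7, 9), (7, 7, 10), (7, 7, 11), (7, 8, 8), (7, 8, 9), (7, 8, 10), (7, 8, 11),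
  (7, 9, 9), (7, 9, 10), (7, 9, 11), (7, 10, 10), (7, 10, 11), (7, 11, 11), (8, 8, 8), (8, 8, 9)]

theorem run3 : Dat7b.cert.runL l3 = true := by decide +kernel

/-- knot cells -/
def l4 : List (Nat × Nat × Nat) := [
  (8, 8, 10), (8, 8, 11), (8, 9, 9), (8, 9, 10), (8, 9, 11), (8, 10, 10), (8, 10, 11), (8, 11, 11),
  (9, 9, 9), (9, 9, 10), (9, 9, 11), (9, 10, 10), (9, 10, 11), (9, 11, 11), (10, 10, 10), (10, 10, 11),
  (10, 11, 11), (11, 11, 11)]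

theorem run4 : Dat7b.cert.runL l4 = true := by decide +kernel

/-- knot cells -/
def l : List (Nat × Nat × Nat) := l0 ++ (l1 ++ (l2 ++ (l3 ++ (l4))))

theorem run : Dat7b.cert.runL l = true := (runL_append run0 (runL_append run1 (runL_append run2 (runL_append run3 run4))))

end RelEqN.Small.Tri.R7b03
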