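import Pool.Agent.Lib.MP_b9e19b_mp.Small.Tri.Cov
import Pool.Agent.Lib.MP_b9e19b_mp.Small.Tri.Run.R7b00
import Pool.Agent.Lib.MP_b9e19b_mp.Small.Tri.Run.R7b01
import Pool.Agent.Lib.MP_b9e19b_mp.Small.Tri.Run.R7b02
import Pool.Agent.Lib.MP_b9e19b_mp.Small.Tri.Run.R7b03

set_option autoImplicit false

/-! All knot cells of the certificate 7b. -/

namespace RelEqN.Small.Tri.G7b

theorem good : Dat7b.cert.good = true := by decide +kernel

/-- all knot cells -/
def l : List (Nat × Nat × Nat) :=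
  R7b00.l ++ (R7b01.l ++ (R7b02.l ++ (R7b03.l)))

theorem cov : Dat7b.cert.cov l = true := by decide +kernel

theorem run : Dat7b.cert.Run :=
  stmtCov.2.1 _ l
    (stmtCov.2.2.1 _ _ _ R7b00.run
    (stmtCov.2.2.1 _ _ _ R7b01.run
    (stmtCov.2.2.1 _ _ _ R7b02.run
    R7b03.run)))
    cov

end RelEqN.Small.Tri.G7b
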