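import Pool.Agent.Lib.MP_b9e19b_mp.Small.Tri.Cov
import Pool.Agent.Lib.MP_b9e19b_mp.Small.Tri.Run.R8a00
import Pool.Agent.Lib.MP_b9e19b_mp.Small.Tri.Run.R8a01
import Pool.Agent.Lib.MP_b9e19b_mp.Small.Tri.Run.R8a02
import Pool.Agent.Lib.MP_b9e19b_mp.Small.Tri.Run.R8a03
import Pool.Agent.Lib.MP_b9e19b_mp.Small.Tri.Run.R8a04
import Pool.Agent.Lib.MP_b9e19b_mp.Small.Tri.Run.R8a05

set_option autoImplicit false

/-! All knot cells of the certificate 8a. -/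

namespace RelEqN.Small.Tri.G8a

theorem good : Dat8a.cert.good = true := by decide +kernel

/-- all knot cells -/
def l : List (Nat × Nat × Nat) :=
  R8a00.l ++ (R8a01.l ++ (R8a02.l ++ (R8a03.l ++ (R8a04.l ++ (R8a05.l)))))

theorem cov : Dat8a.cert.cov l = true := by decide +kernel

theorem run : Dat8a.cert.Run :=
  stmtCov.2.1 _ l
    (stmtCov.2.2.1 _ _ _ R8a00.run
    (stmtCov.2.2.1 _ _ _ R8a01.run
    (stmtCov.2.2.1 _ _ _ R8a02.run
    (stmtCov.2.2.1 _ _ _ R8a03.run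
    (stmtCov.2.2.1 _ _ _ R8a04.run
    R8a05.run)))))
    cov

end RelEqN.Small.Tri.G8a
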