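import Pool.Agent.Lib.MP_b9e19b_mp.Small.Tri.Dat8b
import Pool.Agent.Lib.MP_b9e19b_mp.Small.Tri.RunL

set_option autoImplicit false

/-! Kernel check of knot cells, certificate 8b. -/

namespace RelEqN.Small.Tri.R8b10

/-- knot cells -/
def l0 : List (Nat × Nat × Nat) := [
  (4, 10, 12), (4, 10, 13), (4, 10, 14), (4, 10, 15), (4, 11, 11), (4, 11, 12)]

theorem run0 : Dat8b.cert.runL l0 = true := by decide +kernel

/-- knot cells -/
def l1 : List (Nat × Nat × Nat) := [
  (4, 11, 13), (4, 11, 14), (4, 11, 15), (4, 12, 12), (4, 12, 13), (4, 12, 14), (4, 12, 15), (4, 13, 13),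
  (4, 13, 14), (4, 13, 15), (4, 14, 14), (4, 14, 15), (4, 15, 15), (5, 5, 5), (5, 5, 6)]

theorem run1 : Dat8b.cert.runL l1 = true := by decide +kernel

/-- knot cells -/
def l2 : List (Nat × Nat × Nat) := [
  (5, 5, 7), (5, 5, 8), (5, 5, 9), (5, 5, 10), (5, 5, 11), (5, 5, 12), (5, 5, 13), (5, 5, 14),
  (5, 5, 15)]

theorem run2 : Dat8b.cert.runL l2 = true := by decide +kernel

/-- knot cells -/
def l3 : List (Nat × Nat × Nat) := [
  (5, 6, 6), (5, 6, 7), (5, 6, 8), (5, 6, 9)]

theorem run3 : Dat8b.cert.runL l3 = true := by decide +kernel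

/-- knot cells -/
def l4 : List (Nat × Nat × Nat) := [
  (5, 6, 10), (5, 6, 11), (5, 6, 12), (5, 6, 13), (5, 6, 14), (5, 6, 15)]

theorem run4 : Dat8b.cert.runL l4 = true := by decide +kernel

/-- knot cells -/
def l : List (Nat × Nat × Nat) := l0 ++ (l1 ++ (l2 ++ (l3 ++ (l4))))

theorem run : Dat8b.cert.runL l = true := (runL_append run0 (runL_append run1 (runL_append run2 (runL_append run3 run4))))

end RelEqN.Small.Tri.R8b10
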