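import Pool.Agent.Lib.MP_b9e19b_mp.Small.Tri.Cov
import Pool.Agent.Lib.MP_b9e19b_mp.Small.Tri.Run.R8b00
import Pool.Agent.Lib.MP_b9e19b_mp.Small.Tri.Run.R8b01
import Pool.Agent.Lib.MP_b9e19b_mp.Small.Tri.Run.R8b02
import Pool.Agent.Lib.MP_b9e19b_mp.Small.Tri.Run.R8b03
import Pool.Agent.Lib.MP_b9e19b_mp.Small.Tri.Run.R8b04
import Pool.Agent.Lib.MP_b9e19b_mp.Small.Tri.Run.R8b05
import Pool.Agent.Lib.MP_b9e19b_mp.Small.Tri.Run.R8b06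
import Pool.Agent.Lib.MP_b9e19b_mp.Small.Tri.Run.R8b07
import Pool.Agent.Lib.MP_b9e19b_mp.Small.Tri.Run.R8b08
import Pool.Agent.Lib.MP_b9e19b_mp.Small.Tri.Run.R8b09
import Pool.Agent.Lib.MP_b9e19b_mp.Small.Tri.Run.R8b10
import Pool.Agent.Lib.MP_b9e19b_mp.Small.Tri.Run.R8b11
import Pool.Agent.Lib.MP_b9e19b_mp.Small.Tri.Run.R8b12
import Pool.Agent.Lib.MP_b9e19b_mp.Small.Tri.Run.R8b13
import Pool.Agent.Lib.MP_b9e19b_mp.Small.Tri.Run.R8b14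
import Pool.Agent.Lib.MP_b9e19b_mp.Small.Tri.Run.R8b15
import Pool.Agent.Lib.MP_b9e19b_mp.Small.Tri.Run.R8b16
import Pool.Agent.Lib.MP_b9e19b_mp.Small.Tri.Run.R8b17
import Pool.Agent.Lib.MP_b9e19b_mp.Small.Tri.Run.R8b18
import Pool.Agent.Lib.MP_b9e19b_mp.Small.Tri.Run.R8b19
import Pool.Agent.Lib.MP_b9e19b_mp.Small.Tri.Run.R8b20

set_option autoImplicit false

/-! All knot cells of the certificate 8b. -/

namespace RelEqN.Small.Tri.G8b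

theorem good : Dat8b.cert.good = true := by decide +kernel

/-- all knot cells -/
def l : List (Nat × Nat × Nat) :=
  R8b00.l ++ (R8b01.l ++ (R8b02.l ++ (R8b03.l ++ (R8b04.l ++ (R8b05.l ++ (R8b06.l ++ (R8b07.l ++ (R8b08.l ++ (R8b09.l ++ (R8b10.l ++ (R8b11.l ++ (R8b12.l ++ (R8b13.l ++ (R8b14.l ++ (R8b15.l ++ (R8b16.l ++ (R8b17.l ++ (R8b18.l ++ (R8b19.l ++ (R8b20.l))))))))))))))))))))

theorem cov : Dat8b.cert.cov l = true := by decide +kernel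

theorem run : Dat8b.cert.Run :=
  stmtCov.2.1 _ l
    (stmtCov.2.2.1 _ _ _ R8b00.run
    (stmtCov.2.2.1 _ _ _ R8b01.run
    (stmtCov.2.2.1 _ _ _ R8b02.run
    (stmtCov.2.2.1 _ _ _ R8b03.run
    (stmtCov.2.2.1 _ _ _ R8b04.run
    (stmtCov.2.2.1 _ _ _ R8b05.run
    (stmtCov.2.2.1 _ _ _ R8b06.run
    (stmtCov.2.2.1 _ _ _ R8b07.run
    (stmtCov.2.2.1 _ _ _ R8b08.run
    (stmtCov.2.2.1 _ _ _ R8b09.run
    (stmtCov.2.2.1 _ _ _ R8b10.run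
    (stmtCov.2.2.1 _ _ _ R8b11.run
    (stmtCov.2.2.1 _ _ _ R8b12.run
    (stmtCov.2.2.1 _ _ _ R8b13.run
    (stmtCov.2.2.1 _ _ _ R8b14.run
    (stmtCov.2.2.1 _ _ _ R8b15.run
    (stmtCov.2.2.1 _ _ _ R8b16.run
    (stmtCov.2.2.1 _ _ _ R8b17.run
    (stmtCov.2.2.1 _ _ _ R8b18.run
    (stmtCov.2.2.1 _ _ _ R8b19.run
    R8b20.run))))))))))))))))))))
    cov

end RelEqN.Small.Tri.G8b
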