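import Pool.Agent.Lib.MP_b9e19b_mp.Small.Tri.Dat9a
import Pool.Agent.Lib.MP_b9e19b_mp.Small.Tri.RunL

set_option autoImplicit false

/-! Kernel check of knot cells, certificate 9a. -/

namespace RelEqN.Small.Tri.R9a02

/-- knot cells -/
def l0 : List (Nat × Nat × Nat) := [
  (2, 9, 10), (2, 9, 11), (2, 9, 12), (2, 10, 10), (2, 10, 11), (2, 10, 12), (2, 11, 11)]

theorem run0 : Dat9a.cert.runL l0 = true := by decide +kernel

/-- knot cells -/
def l1 : List (Nat × Nat × Nat) := [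
  (2, 11, 12), (2, 12, 12), (3, 3, 3), (3, 3, 4), (3, 3, 5), (3, 3, 6), (3, 3, 7), (3, 3, 8),
  (3, 3, 9), (3, 3, 10), (3, 3, 11), (3, 3, 12), (3, 4, 4), (3, 4, 5), (3, 4, 6), (3, 4, 7),
  (3, 4, 8), (3, 4, 9), (3, 4, 10), (3, 4, 11), (3, 4, 12), (3, 5, 5), (3, 5, 6)]

theorem run1 : Dat9a.cert.runL l1 = true := by decide +kernel

/-- knot cells -/
def l2 : List (Nat × Nat × Nat) := [
  (3, 5, 7), (3, 5, 8), (3, 5, 9), (3, 5, 10), (3, 5, 11), (3, 5, 12), (3, 6, 6), (3, 6, 7),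
  (3, 6, 8), (3, 6, 9), (3, 6, 10), (3, 6, 11), (3, 6, 12), (3, 7, 7), (3, 7, 8), (3, 7, 9),
  (3, 7, 10), (3, 7, 11), (3, 7, 12), (3, 8, 8), (3, 8, 9)]

theorem run2 : Dat9a.cert.runL l2 = true := by decide +kernel

/-- knot cells -/
def l3 : List (Nat × Nat × Nat) := [
  (3, 8, 10), (3, 8, 11), (3, 8, 12), (3, 9, 9), (3, 9, 10), (3, 9, 11), (3, 9, 12), (3, 10, 10),
  (3, 10, 11), (3, 10, 12)]

theorem run3 : Dat9a.cert.runL l3 = true := by decide +kernel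

/-- knot cells -/
def l4 : List (Nat × Nat × Nat) := [
  (3, 11, 11), (3, 11, 12), (3, 12, 12), (4, 4, 4), (4, 4, 5), (4, 4, 6), (4, 4, 7), (4, 4, 8),
  (4, 4, 9), (4, 4, 10), (4, 4, 11), (4, 4, 12), (4, 5, 5), (4, 5, 6), (4, 5, 7)]

theorem run4 : Dat9a.cert.runL l4 = true := by decide +kernel

/-- knot cells -/
def l : List (Nat × Nat × Nat) := l0 ++ (l1 ++ (l2 ++ (l3 ++ (l4))))

theorem run : Dat9a.cert.runL l = true := (runL_append run0 (runL_append run1 (runL_append run2 (runL_append run3 run4))))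

end RelEqN.Small.Tri.R9a02
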