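import Pool.Agent.Lib.MP_b9e19b_mp.Small.Tri.Dat9a
import Pool.Agent.Lib.MP_b9e19b_mp.Small.Tri.RunL

set_option autoImplicit false

/-! Kernel check of knot cells, certificate 9a. -/

namespace RelEqN.Small.Tri.R9a04

/-- knot cells -/
def l0 : List (Nat × Nat × Nat) := [
  (5, 9, 10), (5, 9, 11), (5, 9, 12), (5, 10, 10), (5, 10, 11), (5, 10, 12), (5, 11, 11), (5, 11, 12)]

theorem run0 : Dat9a.cert.runL l0 = true := by decide +kernel

/-- knot cells -/
def l1 : List (Nat × Nat × Nat) := [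
  (5, 12, 12), (6, 6, 6), (6, 6, 7), (6, 6, 8), (6, 6, 9), (6, 6, 10), (6, 6, 11), (6, 6, 12),
  (6, 7, 7), (6, 7, 8), (6, 7, 9)]

theorem run1 : Dat9a.cert.runL l1 = true := by decide +kernel

/-- knot cells -/
def l2 : List (Nat × Nat × Nat) := [
  (6, 7, 10), (6, 7, 11), (6, 7, 12), (6, 8, 8), (6, 8, 9), (6, 8, 10), (6, 8, 11), (6, 8, 12),
  (6, 9, 9)]

theorem run2 : Dat9a.cert.runL l2 = true := by decide +kernel

/-- knot cells -/
def l3 : List (Nat × Nat × Nat) := [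
  (6, 9, 10), (6, 9, 11), (6, 9, 12), (6, 10, 10), (6, 10, 11), (6, 10, 12), (6, 11, 11), (6, 11, 12),
  (6, 12, 12), (7, 7, 7), (7, 7, 8)]

theorem run3 : Dat9a.cert.runL l3 = true := by decide +kernel

/-- knot cells -/
def l4 : List (Nat × Nat × Nat) := [
  (7, 7, 9), (7, 7, 10), (7, 7, 11), (7, 7, 12), (7, 8, 8), (7, 8, 9), (7, 8, 10), (7, 8, 11),
  (7, 8, 12), (7, 9, 9)]

theorem run4 : Dat9a.cert.runL l4 = true := by decide +kernel

/-- knot cells -/
def l : List (Nat × Nat × Nat) := l0 ++ (l1 ++ (l2 ++ (l3 ++ (l4))))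

theorem run : Dat9a.cert.runL l = true := (runL_append run0 (runL_append run1 (runL_append run2 (runL_append run3 run4))))

end RelEqN.Small.Tri.R9a04
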