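import Pool.Agent.Lib.MP_b9e19b_mp.Small.Tri.Dat9b
import Pool.Agent.Lib.MP_b9e19b_mp.Small.Tri.RunL

set_option autoImplicit false

/-! Kernel check of knot cells, certificate 9b. -/

namespace RelEqN.Small.Tri.R9b00

/-- knot cells -/
def l0 : List (Nat × Nat × Nat) := [
  (0, 0, 0), (0, 0, 1), (0, 0, 2), (0, 0, 3), (0, 0, 4), (0, 0, 5), (0, 0, 6), (0, 0, 7),
  (0, 0, 8), (0, 0, 9), (0, 0, 10), (0, 0, 11), (0, 0, 12), (0, 1, 1), (0, 1, 2), (0, 1, 3),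
  (0, 1, 4), (0, 1, 5), (0, 1, 6), (0, 1, 7), (0, 1, 8), (0, 1, 9), (0, 1, 10), (0, 1, 11),
  (0, 1, 12), (0, 2, 2), (0, 2, 3), (0, 2, 4), (0, 2, 5), (0, 2, 6), (0, 2, 7), (0, 2, 8),
  (0, 2, 9), (0, 2, 10), (0, 2, 11), (0, 2, 12), (0, 3, 3), (0, 3, 4), (0, 3, 5), (0, 3, 6),
  (0, 3, 7), (0, 3, 8), (0, 3, 9), (0, 3, 10), (0, 3, 11), (0, 3, 12), (0, 4, 4), (0, 4, 5),
  (0, 4, 6), (0, 4, 7), (0, 4, 8), (0, 4, 9), (0, 4, 10), (0, 4, 11), (0, 4, 12), (0, 5, 5),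
  (0, 5, 6), (0, 5, 7), (0, 5, 8), (0, 5, 9), (0, 5, 10), (0, 5, 11), (0, 5, 12), (0, 6, 6),
  (0, 6, 7), (0, 6, 8), (0, 6, 9), (0, 6, 10), (0, 6, 11), (0, 6, 12), (0, 7, 7), (0, 7, 8),
  (0, 7, 9), (0, 7, 10), (0, 7, 11), (0, 7, 12), (0, 8, 8), (0, 8, 9), (0, 8, 10), (0, 8, 11),
  (0, 8, 12), (0, 9, 9), (0, 9, 10), (0, 9, 11), (0, 9, 12), (0, 10, 10), (0, 10, 11), (0, 10, 12)]

theorem run0 : Dat9b.cert.runL l0 = true := by decide +kernel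

/-- knot cells -/
def l1 : List (Nat × Nat × Nat) := [
  (0, 11, 11), (0, 11, 12), (0, 12, 12), (1, 1, 1), (1, 1, 2), (1, 1, 3), (1, 1, 4), (1, 1, 5),
  (1, 1, 6), (1, 1, 7), (1, 1, 8), (1, 1, 9), (1, 1, 10), (1, 1, 11), (1, 1, 12), (1, 2, 2),
  (1, 2, 3)]

theorem run1 : Dat9b.cert.runL l1 = true := by decide +kernel

/-- knot cells -/
def l2 : List (Nat × Nat × Nat) := [
  (1, 2, 4), (1, 2, 5), (1, 2, 6), (1, 2, 7), (1, 2, 8), (1, 2, 9), (1, 2, 10), (1, 2, 11),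
  (1, 2, 12), (1, 3, 3), (1, 3, 4), (1, 3, 5)]

theorem run2 : Dat9b.cert.runL l2 = true := by decide +kernel

/-- knot cells -/
def l3 : List (Nat × Nat × Nat) := [
  (1, 3, 6), (1, 3, 7), (1, 3, 8), (1, 3, 9), (1, 3, 10), (1, 3, 11), (1, 3, 12), (1, 4, 4),
  (1, 4, 5), (1, 4, 6), (1, 4, 7), (1, 4, 8), (1, 4, 9), (1, 4, 10), (1, 4, 11), (1, 4, 12),
  (1, 5, 5), (1, 5, 6)]

theorem run3 : Dat9b.cert.runL l3 = true := by decide +kernel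

/-- knot cells -/
def l4 : List (Nat × Nat × Nat) := [
  (1, 5, 7), (1, 5, 8), (1, 5, 9), (1, 5, 10), (1, 5, 11), (1, 5, 12), (1, 6, 6), (1, 6, 7),
  (1, 6, 8), (1, 6, 9), (1, 6, 10), (1, 6, 11), (1, 6, 12), (1, 7, 7), (1, 7, 8), (1, 7, 9),
  (1, 7, 10), (1, 7, 11), (1, 7, 12), (1, 8, 8)]

theorem run4 : Dat9b.cert.runL l4 = true := by decide +kernel

/-- knot cells -/
def l : List (Nat × Nat × Nat) := l0 ++ (l1 ++ (l2 ++ (l3 ++ (l4))))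

theorem run : Dat9b.cert.runL l = true := (runL_append run0 (runL_append run1 (runL_append run2 (runL_append run3 run4))))

end RelEqN.Small.Tri.R9b00
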