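import Pool.Agent.Lib.MP_b9e19b_mp.Small.Tri.Cov
import Pool.Agent.Lib.MP_b9e19b_mp.Small.Tri.Run.R9b00
import Pool.Agent.Lib.MP_b9e19b_mp.Small.Tri.Run.R9b01
import Pool.Agent.Lib.MP_b9e19b_mp.Small.Tri.Run.R9b02
import Pool.Agent.Lib.MP_b9e19b_mp.Small.Tri.Run.R9b03
import Pool.Agent.Lib.MP_b9e19b_mp.Small.Tri.Run.R9b04
import Pool.Agent.Lib.MP_b9e19b_mp.Small.Tri.Run.R9b05
import Pool.Agent.Lib.MP_b9e19b_mp.Small.Tri.Run.R9b06
import Pool.Agent.Lib.MP_b9e19b_mp.Small.Tri.Run.R9b07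

set_option autoImplicit false

/-! All knot cells of the certificate 9b. -/

namespace RelEqN.Small.Tri.G9b

theorem good : Dat9b.cert.good = true := by decide +kernel

/-- all knot cells -/
def l : List (Nat × Nat × Nat) :=
  R9b00.l ++ (R9b01.l ++ (R9b02.l ++ (R9b03.l ++ (R9b04.l ++ (R9b05.l ++ (R9b06.l ++ (R9b07.l)))))))

theorem cov : Dat9b.cert.cov l = true := by decide +kernel

theorem run : Dat9b.cert.Run :=
  stmtCov.2.1 _ l
    (stmtCov.2.2.1 _ _ _ R9b00.run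
    (stmtCov.2.2.1 _ _ _ R9b01.run
    (stmtCov.2.2.1 _ _ _ R9b02.run
    (stmtCov.2.2.1 _ _ _ R9b03.run
    (stmtCov.2.2.1 _ _ _ R9b04.run
    (stmtCov.2.2.1 _ _ _ R9b05.run
    (stmtCov.2.2.1 _ _ _ R9b06.run
    R9b07.run)))))))
    cov

end RelEqN.Small.Tri.G9b
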