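import Pool.Agent.Lib.MP_b9e19b_mp.Small.Tri.Dat9b
import Pool.Agent.Lib.MP_b9e19b_mp.Small.Tri.RunL

set_option autoImplicit false

/-! Kernel check of knot cells, certificate 9b. -/

namespace RelEqN.Small.Tri.R9b07

/-- knot cells -/
def l0 : List (Nat × Nat × Nat) := [
  (6, 10, 10), (6, 10, 11), (6, 10, 12), (6, 11, 11), (6, 11, 12), (6, 12, 12), (7, 7, 7), (7, 7, 8),
  (7, 7, 9), (7, 7, 10)]

theorem run0 : Dat9b.cert.runL l0 = true := by decide +kernel

/-- knot cells -/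
def l1 : List (Nat × Nat × Nat) := [
  (7, 7, 11), (7, 7, 12), (7, 8, 8), (7, 8, 9), (7, 8, 10), (7, 8, 11), (7, 8, 12), (7, 9, 9),
  (7, 9, 10)]

theorem run1 : Dat9b.cert.runL l1 = true := by decide +kernel

/-- knot cells -/
def l2 : List (Nat × Nat × Nat) := [
  (7, 9, 11), (7, 9, 12), (7, 10, 10), (7, 10, 11), (7, 10, 12), (7, 11, 11), (7, 11, 12), (7, 12, 12),
  (8, 8, 8), (8, 8, 9), (8, 8, 10), (8, 8, 11), (8, 8, 12), (8, 9, 9)]

theorem run2 : Dat9b.cert.runL l2 = true := by decide +kernel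

/-- knot cells -/
def l3 : List (Nat × Nat × Nat) := [
  (8, 9, 10), (8, 9, 11), (8, 9, 12), (8, 10, 10), (8, 10, 11), (8, 10, 12), (8, 11, 11), (8, 11, 12),
  (8, 12, 12), (9, 9, 9), (9, 9, 10), (9, 9, 11), (9, 9, 12), (9, 10, 10), (9, 10, 11), (9, 10, 12),
  (9, 11, 11), (9, 11, 12), (9, 12, 12), (10, 10, 10), (10, 10, 11), (10, 10, 12), (10, 11, 11), (10, 11, 12),
  (10, 12, 12), (11, 11, 11), (11, 11, 12), (11, 12, 12), (12, 12, 12)]

theorem run3 : Dat9b.cert.runL l3 = true := by decide +kernel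

/-- knot cells -/
def l : List (Nat × Nat × Nat) := l0 ++ (l1 ++ (l2 ++ (l3)))

theorem run : Dat9b.cert.runL l = true := (runL_append run0 (runL_append run1 (runL_append run2 run3)))

end RelEqN.Small.Tri.R9b07
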